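import Mathlib
import Pool.Agent.H99.TraceDefs

set_option autoImplicit false

namespace Pool.Agent.Results.MP_9bafdc_mp.Counter

open MvPolynomial Pool.Agent.H99.TraceBr

/-- derivations of the polynomial ring -/
abbrev Der := Derivation ℂ (R 3 2) (R 3 2)

/-- matrices over the polynomial ring -/
abbrev Mat := Matrix (Fin 3) (Fin 3) (R 3 2)

lemma map_mul_der (D : Der) (A B : Mat) : (A * B).map D = A.map D * B + A * B.map D := by
  ext1 i j
  simp only [Matrix.map_apply, Matrix.mul_apply, map_sum, Derivation.leibniz, smul_eq_mul,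
    Matrix.add_apply, ← Finset.sum_add_distrib]
  exact Finset.sum_congr rfl fun l _ => by ring

lemma map_const_der (D : Der) (G : Matrix (Fin 3) (Fin 3) ℂ) :
    ((G.map C : Mat)).map D = 0 := by
  ext1 i j
  simp

/-- shift of the second matrix by the identity -/
noncomputable def V0 : Der :=
  mkDerivation ℂ fun p => (if p.1 = 1 then (1 : Mat) else 0) p.2.1 p.2.2

/-- inner derivation by a power of the first matrix -/
noncomputable def V1 (n : ℕ) : Der :=
  mkDerivation ℂ fun p => (xm 0 ^ n * xm p.1 - xm p.1 * xm 0 ^ n : Mat) p.2.1 p.2.2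

lemma V0_xm (a : Fin 2) : (xm a : Mat).map V0 = if a = 1 then 1 else 0 := by
  ext1 i j
  simp only [Matrix.map_apply, xm, Matrix.of_apply, V0, mkDerivation_X]

lemma V1_xm (n : ℕ) (a : Fin 2) : (xm a : Mat).map (V1 n) = xm 0 ^ n * xm a - xm a * xm 0 ^ n := by
  ext1 i j
  rw [Matrix.map_apply]
  exact mkDerivation_X _ _ _

lemma map_one_der (D : Der) : (1 : Mat).map D = 0 := by
  have := map_const_der D 1
  rwa [Matrix.map_one _ C_0 C_1] at this

lemma V0_pow (n : ℕ) : ((xm 0 : Mat) ^ n).map V0 = 0 := by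
  induction n with
  | zero => rw [pow_zero, map_one_der]
  | succ n ih => rw [pow_succ, map_mul_der, ih, V0_xm]; simp

lemma comm (n : ℕ) (f : R 3 2) : V0 (V1 n f) = V1 n (V0 f) := by
  have : ⁅V0, V1 n⁆ = 0 := by
    apply derivation_ext
    rintro ⟨a, i, j⟩
    rw [Derivation.commutator_apply]
    have h1 : V0 (V1 n (X (a, i, j))) = (((xm a : Mat).map (V1 n)).map V0) i j := rfl
    have h2 : V1 n (V0 (X (a, i, j))) = (((xm a : Mat).map V0).map (V1 n)) i j := rfl
    rw [h1, h2, V1_xm, Matrix.map_sub _ (map_sub V0), map_mul_der, map_mul_der, V0_pow, V0_xm]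
    split_ifs
    · rw [map_one_der]; simp
    · simp
  have h2 := congrArg (fun D : Der => D f) this
  simp only [Derivation.commutator_apply, Derivation.zero_apply] at h2
  exact sub_eq_zero.1 h2

/-- the bracket -/
noncomputable def br (n : ℕ) : R 3 2 →ₗ[ℂ] R 3 2 →ₗ[ℂ] R 3 2 :=
  LinearMap.mk₂ ℂ (fun f g => V0 f * V1 n g - V1 n f * V0 g)
    (fun _ _ _ => by simp only [map_add]; ring)
    (fun _ _ _ => by simp only [Derivation.map_smul, smul_sub, smul_mul_assoc])
    (fun _ _ _ => by simp only [map_add]; ring)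
    (fun _ _ _ => by simp only [Derivation.map_smul, smul_sub, mul_smul_comm])

lemma br_apply (n : ℕ) (f g : R 3 2) : br n f g = V0 f * V1 n g - V1 n f * V0 g := rfl

lemma poisson (n : ℕ) : IsPoisson (br n) := by
  refine ⟨fun f g => ?_, fun f g h => ?_, fun f g h => ?_⟩
  · simp only [br_apply]; ring
  · simp only [br_apply, Derivation.leibniz, smul_eq_mul]; ring
  · simp only [br_apply, map_sub, Derivation.leibniz, smul_eq_mul, comm]; ring

lemma hom_der (φ : R 3 2 →ₐ[ℂ] R 3 2) (D : Der) (hX : ∀ p, φ (D (X p)) = D (φ (X p)))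
    (h : R 3 2) : φ (D h) = D (φ h) := by
  induction h using MvPolynomial.induction_on with
  | C c => simp
  | add p q hp hq => simp only [map_add, hp, hq]
  | mul_X p j hp =>
    simp only [Derivation.leibniz, smul_eq_mul, map_add, map_mul, hp, hX]

lemma conj_xm (g : GL (Fin 3) ℂ) (a : Fin 2) :
    (xm a : Mat).map (conjBy g) = g.val.map C * xm a * (g⁻¹).val.map C := by
  ext1 i j
  rw [Matrix.map_apply]
  exact aeval_X _ _

lemma inv_mul' (g : GL (Fin 3) ℂ) : ((g⁻¹).val.map C * g.val.map C : Mat) = 1 := by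
  rw [← Matrix.map_mul, Units.inv_mul, Matrix.map_one _ C_0 C_1]

lemma mul_inv' (g : GL (Fin 3) ℂ) : (g.val.map C * (g⁻¹).val.map C : Mat) = 1 := by
  rw [← Matrix.map_mul, Units.mul_inv, Matrix.map_one _ C_0 C_1]

lemma conj_V0 (g : GL (Fin 3) ℂ) (f : R 3 2) : conjBy g (V0 f) = V0 (conjBy g f) := by
  apply hom_der
  rintro ⟨a, i, j⟩
  have h1 : conjBy g (V0 (X (a, i, j))) = (((xm a : Mat).map V0).map (conjBy g)) i j := rfl
  have h2 : V0 (conjBy g (X (a, i, j))) = (((xm a : Mat).map (conjBy g)).map V0) i j := rfl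
  rw [h1, h2, conj_xm, map_mul_der, map_mul_der, map_const_der, map_const_der, V0_xm]
  split_ifs
  · rw [Matrix.map_one _ (map_zero _) (map_one _)]
    simp only [zero_mul, mul_zero, zero_add, add_zero, mul_one, mul_inv']
  · simp

lemma conj_V1 (n : ℕ) (g : GL (Fin 3) ℂ) (f : R 3 2) :
    conjBy g (V1 n f) = V1 n (conjBy g f) := by
  apply hom_der
  rintro ⟨a, i, j⟩
  have h1 : conjBy g (V1 n (X (a, i, j))) = (((xm a : Mat).map (V1 n)).map (conjBy g)) i j := rfl
  have h2 : V1 n (conjBy g (X (a, i, j))) = (((xm a : Mat).map (conjBy g)).map (V1 n)) i j := rfl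
  have h3 : ∀ k : ℕ, ((xm 0 : Mat) ^ k).map (conjBy g)
      = g.val.map C * xm 0 ^ k * (g⁻¹).val.map C := by
    intro k
    induction k with
    | zero => rw [pow_zero, Matrix.map_one _ (map_zero _) (map_one _), mul_one, mul_inv']
    | succ k ih =>
      rw [pow_succ, Matrix.map_mul, ih, conj_xm]
      calc g.val.map C * xm 0 ^ k * (g⁻¹).val.map C * (g.val.map C * xm 0 * (g⁻¹).val.map C)
          = g.val.map C * xm 0 ^ k * ((g⁻¹).val.map C * g.val.map C) * xm 0
            * (g⁻¹).val.map C := by simp only [mul_assoc]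
        _ = _ := by rw [inv_mul']; simp only [mul_assoc, one_mul]
  rw [h1, h2, conj_xm, map_mul_der, map_mul_der, map_const_der, map_const_der, V1_xm,
    Matrix.map_sub _ (map_sub (conjBy g)), Matrix.map_mul, Matrix.map_mul, h3, conj_xm]
  refine congrFun (congrFun ?_ i) j
  calc g.val.map C * xm 0 ^ n * (g⁻¹).val.map C * (g.val.map C * xm a * (g⁻¹).val.map C)
        - g.val.map C * xm a * (g⁻¹).val.map C * (g.val.map C * xm 0 ^ n * (g⁻¹).val.map C)
      = g.val.map C * xm 0 ^ n * ((g⁻¹).val.map C * g.val.map C) * xm a * (g⁻¹).val.map C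
        - g.val.map C * xm a * ((g⁻¹).val.map C * g.val.map C) * xm 0 ^ n * (g⁻¹).val.map C := by
          simp only [mul_assoc]
    _ = _ := by
      rw [inv_mul']
      simp only [mul_assoc, one_mul, zero_mul, mul_zero, zero_add, add_zero, mul_sub, sub_mul]

lemma V1_tr (n : ℕ) (P : FreeAlgebra ℂ (Fin 2)) : V1 n (trP P) = 0 := by
  have h : (FreeAlgebra.lift ℂ (xm (m := 3)) P).map (V1 n)
      = xm 0 ^ n * FreeAlgebra.lift ℂ (xm (m := 3)) P
        - FreeAlgebra.lift ℂ (xm (m := 3)) P * xm 0 ^ n := by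
    induction P using FreeAlgebra.induction with
    | grade0 r =>
      rw [AlgHom.commutes, Algebra.commutes, sub_self, Algebra.algebraMap_eq_smul_one,
        Matrix.map_smul _ _ (Derivation.map_smul _ r), map_one_der, smul_zero]
    | grade1 a => rw [FreeAlgebra.lift_ι_apply, V1_xm]
    | mul a b ha hb => rw [map_mul, map_mul_der, ha, hb]; noncomm_ring
    | add a b ha hb => rw [map_add, Matrix.map_add _ (map_add (V1 n)), ha, hb]; noncomm_ring
  have h2 : V1 n (trP P) = ((FreeAlgebra.lift ℂ (xm (m := 3)) P).map (V1 n)).trace := by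
    simp only [trP, Matrix.trace, map_sum, Matrix.diag, Matrix.map_apply]
  rw [h2, h, Matrix.trace_sub, Matrix.trace_mul_comm, sub_self]

lemma pow_homog (n : ℕ) : ∀ i j, (((xm 0 : Mat) ^ n) i j).IsHomogeneous n := by
  induction n with
  | zero =>
    intro i j
    rw [pow_zero, Matrix.one_apply]
    split_ifs
    exacts [isHomogeneous_one _ _, isHomogeneous_zero _ _ _]
  | succ n ih =>
    intro i j
    rw [pow_succ, Matrix.mul_apply]
    exact IsHomogeneous.sum _ _ _ fun l _ => (ih i l).mul (isHomogeneous_X _ _)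

lemma V0_homog (p : Fin 2 × Fin 3 × Fin 3) : (V0 (X p)).IsHomogeneous 0 := by
  rw [V0, mkDerivation_X]
  split_ifs
  · rw [Matrix.one_apply]
    split_ifs
    exacts [isHomogeneous_one _ _, isHomogeneous_zero _ _ _]
  · exact isHomogeneous_zero _ _ _

lemma V1_homog (n : ℕ) (p : Fin 2 × Fin 3 × Fin 3) : (V1 n (X p)).IsHomogeneous (n + 1) := by
  rw [V1, mkDerivation_X, Matrix.sub_apply, Matrix.mul_apply, Matrix.mul_apply]
  refine IsHomogeneous.sub (IsHomogeneous.sum _ _ _ fun l _ => (pow_homog n _ l).mul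
    (isHomogeneous_X _ _)) (IsHomogeneous.sum _ _ _ fun l _ => ?_)
  rw [add_comm]
  exact (isHomogeneous_X _ _).mul (pow_homog n l _)

/-- the test point -/
def pt : Fin 2 → Matrix (Fin 3) (Fin 3) ℂ := ![!![1, 0, 0; 0, 0, 0; 0, 0, 0], !![0, 1, 0; 0, 0, 0; 0, 0, 0]]

/-- evaluation at the test point -/
noncomputable def ev : R 3 2 →ₐ[ℂ] ℂ := aeval fun p => pt p.1 p.2.1 p.2.2

lemma ev_xm (a : Fin 2) : (xm a : Mat).map ev = pt a := by
  ext1 i j
  rw [Matrix.map_apply]
  exact aeval_X _ _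

lemma ev_wd (u : List (Fin 2)) : ev (wd u 2 1) = 0 := by
  cases u with
  | nil => simp [wd]
  | cons a u =>
    simp only [wd, List.map_cons, List.prod_cons, Matrix.mul_apply, map_sum, map_mul]
    refine Finset.sum_eq_zero fun l _ => mul_eq_zero_of_left ?_ _
    have := congrFun (congrFun (ev_xm a) 2) l
    rw [Matrix.map_apply] at this
    rw [this]
    fin_cases a <;> fin_cases l <;> simp [pt]

lemma not_form (n k : ℕ) : ¬ HasForm k (br (n + 1)) := by
  rintro ⟨c, hc⟩
  have h := congrArg ev (hc 1 1 2 2 0 1)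
  simp only [map_sum, map_smul, map_mul, ev_wd, zero_mul, smul_zero, Finset.sum_const_zero,
    br_apply, map_sub] at h
  have h1 : V0 (X (1, 2, 2)) = 1 := by simp [V0]
  have h2 : V0 (X (1, 0, 1)) = 0 := by simp [V0]
  have h3 : ev (V1 (n + 1) (X (1, 0, 1))) = (((xm 1 : Mat).map (V1 (n + 1))).map ev) 0 1 := rfl
  have h4 : pt 0 ^ (n + 1) = pt 0 := by
    apply IsIdempotentElem.pow_succ_eq
    ext i j
    fin_cases i <;> fin_cases j <;> simp [pt, Matrix.mul_apply, Fin.sum_univ_three]
  have h5 : ∀ l : ℕ, ((xm 0 : Mat) ^ l).map ev = pt 0 ^ l := by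
    intro l
    induction l with
    | zero => rw [pow_zero, pow_zero, Matrix.map_one _ (map_zero _) (map_one _)]
    | succ l ih => rw [pow_succ, pow_succ, Matrix.map_mul, ih, ev_xm]
  rw [h1, h2, h3, V1_xm, Matrix.map_sub _ (map_sub ev), Matrix.map_mul, Matrix.map_mul,
    h5, ev_xm, h4] at h
  simp [pt] at h

/-- For every k > 2 there is a homogeneous trace Poisson bracket of degree k on two 3 by 3
matrices that is not of form (*). -/
theorem result : ∀ k : ℕ, 2 < k → ∃ br : R 3 2 →ₗ[ℂ] R 3 2 →ₗ[ℂ] R 3 2,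
    IsPoisson br ∧ IsTraceBracket br ∧ (∀ p q, (br (X p) (X q)).IsHomogeneous k) ∧
      ¬ HasForm k br := by
  intro k hk
  obtain ⟨n, rfl⟩ : ∃ n, k = n + 1 + 1 := ⟨k - 2, by omega⟩
  refine ⟨br (n + 1), poisson _, ⟨fun g f h => ?_, fun P Q => ⟨0, ?_⟩⟩, fun p q => ?_,
    not_form n _⟩
  · simp only [br_apply, map_sub, map_mul, conj_V0, conj_V1]
  · rw [br_apply, V1_tr, V1_tr]
    simp [trP]
  · rw [br_apply]
    refine IsHomogeneous.sub ?_ ((V1_homog _ p).mul (V0_homog q))
    have := (V0_homog p).mul (V1_homog (n + 1) q)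
    rwa [zero_add] at this

end Pool.Agent.Results.MP_9bafdc_mp.Counter
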